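import Pool.Agent.helper22.RG9.Spec

/-! # Project rg9, row LAT: the lattice in a column -/

set_option autoImplicit false

namespace Pool.Agent.RG9

open Matrix Pool.Agent.H48SL Pool.Agent.UG

theorem LAT_comm (hLGF : LGF_stmt) {n : ℕ} (g h : SLZ n) (hg : Unp g) (hh : Unp h) (hc : g * h = h * g) :
    lg g * lg h = lg h * lg g := by
  obtain ⟨h1, -⟩ := hLGF n
  have h2 : qg h * qg g = qg g * qg h := by rw [← qg_mul, ← qg_mul, hc]
  have h3 := (h1 g hg).2.2 (qg h) h2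
  exact (h1 h hh).2.2 (lg g) h3.symm

theorem LAT_nil (hLGF : LGF_stmt) (hNCM : NCM_stmt) {n m : ℕ} (F : Fin m → Subgroup (SLZ n)) (q : Fin m → Prop)
    (hc : ∀ i k, q i → q k → ∀ x ∈ F i, ∀ y ∈ F k, x * y = y * x)
    (hu : ∀ i, q i → ∀ x ∈ F i, Unp (x ^ n.factorial)) :
    ANil (Submodule.span ℚ {Z : MQ n | ∃ i, q i ∧ Z ∈ LS (F i)}) := by
  obtain ⟨N, hN⟩ := hNCM n {Z : MQ n | ∃ i, q i ∧ ∃ x ∈ F i, Z = lg (x ^ n.factorial)} (by
    rintro A ⟨i, hi, x, hx, rfl⟩ B ⟨k, hk, y, hy, rfl⟩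
    refine LAT_comm hLGF _ _ (hu i hi x hx) (hu k hk y hy) ?_
    exact ((show Commute x y from hc i k hi hk x hx y hy).pow_pow _ _).eq) (by
    rintro A ⟨i, hi, x, hx, rfl⟩
    exact ((hLGF n).1 _ (hu i hi x hx)).1)
  have hle : Submodule.span ℚ {Z : MQ n | ∃ i, q i ∧ Z ∈ LS (F i)} ≤
      Submodule.span ℚ {Z : MQ n | ∃ i, q i ∧ ∃ x ∈ F i, Z = lg (x ^ n.factorial)} := by
    rw [Submodule.span_le]
    rintro Z ⟨i, hi, hZ⟩
    have h1 : LS (F i) ≤ Submodule.span ℚ {Z : MQ n | ∃ i, q i ∧ ∃ x ∈ F i, Z = lg (x ^ n.factorial)} := by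
      apply Submodule.span_mono
      rintro W ⟨x, hx, rfl⟩
      exact ⟨i, hi, x, hx, rfl⟩
    exact h1 hZ
  exact ⟨N, fun l hl hlen => hN l (fun X hX => hle (hl X hX)) hlen⟩

theorem LAT_closure_comm {G : Type} [Group G] (T : Set G) (hT : ∀ x ∈ T, ∀ y ∈ T, x * y = y * x) :
    ∀ x ∈ Subgroup.closure T, ∀ y ∈ Subgroup.closure T, x * y = y * x := by
  have h1 : Subgroup.closure T ≤ Subgroup.centralizer T := by
    rw [Subgroup.closure_le]
    intro x hx
    rw [SetLike.mem_coe, Subgroup.mem_centralizer_iff]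
    intro y hy
    exact hT y hy x hx
  have h2 : Subgroup.closure T ≤ Subgroup.centralizer (Subgroup.closure T : Set G) := by
    rw [Subgroup.closure_le]
    intro x hx
    rw [SetLike.mem_coe, Subgroup.mem_centralizer_iff]
    intro y hy
    have h3 := h1 hy
    rw [Subgroup.mem_centralizer_iff] at h3
    exact (h3 x hx).symm
  intro x hx y hy
  have h3 := h2 hx
  rw [Subgroup.mem_centralizer_iff] at h3
  exact (h3 y hy).symm

theorem LAT_lat (hLGF : LGF_stmt) (hABG : ABG_stmt) {n m : ℕ} (F : Fin m → Subgroup (SLZ n)) (q : Fin m → Prop)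
    (hc : ∀ i k, q i → q k → ∀ x ∈ F i, ∀ y ∈ F k, x * y = y * x)
    (hu : ∀ i, q i → ∀ x ∈ F i, Unp (x ^ n.factorial)) (G : Subgroup (SLZ n)) (hG : ∀ i, q i → F i ≤ G) :
    ∃ A : Subgroup (SLZ n), A ≤ G ∧
    (∀ Z ∈ Submodule.span ℚ {Z : MQ n | ∃ i, q i ∧ Z ∈ LS (F i)}, ∃ k : ℕ, 1 ≤ k ∧ ∃ a ∈ A,
      qg a = IsNilpotent.exp ((k : ℚ) • Z)) ∧
    ∀ a ∈ A, ∃ Z ∈ Submodule.span ℚ {Z : MQ n | ∃ i, q i ∧ Z ∈ LS (F i)}, qg a = IsNilpotent.exp Z := by
  obtain ⟨l1, l2, l3, l4, -, -, l7, l8⟩ := hLGF n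
  have hAc := LAT_closure_comm {g : SLZ n | ∃ i, q i ∧ ∃ x ∈ F i, g = x ^ n.factorial} (by
    rintro a ⟨i, hi, x, hx, rfl⟩ b ⟨k, hk, y, hy, rfl⟩
    exact ((show Commute x y from hc i k hi hk x hx y hy).pow_pow _ _).eq)
  have hAu : ∀ a ∈ Subgroup.closure {g : SLZ n | ∃ i, q i ∧ ∃ x ∈ F i, g = x ^ n.factorial},
      Unp a ∧ lg a ∈ Submodule.span ℚ {Z : MQ n | ∃ i, q i ∧ Z ∈ LS (F i)} := by
    intro a ha
    induction ha using Subgroup.closure_induction with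
    | mem g hg =>
      obtain ⟨i, hi, x, hx, rfl⟩ := hg
      refine ⟨hu i hi x hx, Submodule.subset_span ⟨i, hi, Submodule.subset_span ⟨x, hx, rfl⟩⟩⟩
    | one =>
      refine ⟨l7, ?_⟩
      rw [l8]
      exact Submodule.zero_mem _
    | mul x y hx hy hx' hy' =>
      have h1 := l2 x y hx'.1 hy'.1 (hAc x hx y hy)
      refine ⟨h1.1, ?_⟩
      rw [h1.2]
      exact Submodule.add_mem _ hx'.2 hy'.2
    | inv x hx hx' =>
      have h1 := l3 x hx'.1
      refine ⟨h1.1, ?_⟩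
      rw [h1.2]
      exact Submodule.neg_mem _ hx'.2
  refine ⟨Subgroup.closure {g : SLZ n | ∃ i, q i ∧ ∃ x ∈ F i, g = x ^ n.factorial}, ?_, ?_, ?_⟩
  · rw [Subgroup.closure_le]
    rintro g ⟨i, hi, x, hx, rfl⟩
    exact G.pow_mem (hG i hi hx) _
  · have key : ∀ Z ∈ Submodule.span ℚ {Z : MQ n | ∃ i, q i ∧ Z ∈ LS (F i)}, ∃ k : ℕ, 1 ≤ k ∧
        ∃ a ∈ Subgroup.closure {g : SLZ n | ∃ i, q i ∧ ∃ x ∈ F i, g = x ^ n.factorial}, lg a = (k : ℚ) • Z := by
      intro Z hZ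
      induction hZ using Submodule.span_induction with
      | mem Z hZ =>
        obtain ⟨i, hi, hZ⟩ := hZ
        obtain ⟨k, hk, x, hx, he⟩ := hABG n (F i) (hc i i hi hi) (hu i hi) Z hZ
        exact ⟨k, hk, x ^ n.factorial, Subgroup.subset_closure ⟨i, hi, x, hx, rfl⟩, he.symm⟩
      | zero => exact ⟨1, le_rfl, 1, Subgroup.one_mem _, by rw [l8, smul_zero]⟩
      | add Z W _ _ hZ hW =>
        obtain ⟨k, hk, a, ha, hae⟩ := hZ
        obtain ⟨l, hl, b, hb, hbe⟩ := hW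
        have ha' := Subgroup.pow_mem _ ha l
        have hb' := Subgroup.pow_mem _ hb k
        have e1 := l4 a (hAu a ha).1 l
        have e2 := l4 b (hAu b hb).1 k
        have e3 := l2 (a ^ l) (b ^ k) e1.1 e2.1 (hAc _ ha' _ hb')
        refine ⟨k * l, Nat.mul_pos hk hl, a ^ l * b ^ k, Subgroup.mul_mem _ ha' hb', ?_⟩
        rw [e3.2, e1.2, e2.2, hae, hbe, smul_smul, smul_smul, smul_add]
        push_cast
        rw [mul_comm (l : ℚ) k]
      | smul c Z _ hZ =>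
        obtain ⟨k, hk, a, ha, hae⟩ := hZ
        have hd : (c.den : ℚ) * c = c.num := by
          rw [mul_comm]
          exact Rat.mul_den_eq_num c
        obtain ⟨t, ht⟩ : ∃ t : ℕ, c.num = t ∨ c.num = -t := Int.eq_nat_or_neg c.num
        have e1 := l4 a (hAu a ha).1 t
        rcases ht with ht | ht
        · refine ⟨c.den * k, Nat.mul_pos c.den_pos hk, a ^ t, Subgroup.pow_mem _ ha t, ?_⟩
          rw [e1.2, hae, smul_smul, smul_smul]
          have h2 : ((c.den * k : ℕ) : ℚ) * c = (t : ℚ) * k := by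
            push_cast
            calc (c.den : ℚ) * k * c = ((c.den : ℚ) * c) * k := by ring
              _ = (t : ℚ) * k := by rw [hd, ht]; push_cast; ring
          rw [h2]
        · have e2 := l3 (a ^ t) e1.1
          refine ⟨c.den * k, Nat.mul_pos c.den_pos hk, (a ^ t)⁻¹, Subgroup.inv_mem _ (Subgroup.pow_mem _ ha t), ?_⟩
          rw [e2.2, e1.2, hae, smul_smul, smul_smul, ← neg_smul]
          have h2 : ((c.den * k : ℕ) : ℚ) * c = -((t : ℚ) * k) := by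
            push_cast
            calc (c.den : ℚ) * k * c = ((c.den : ℚ) * c) * k := by ring
              _ = -((t : ℚ) * k) := by rw [hd, ht]; push_cast; ring
          rw [h2]
    intro Z hZ
    obtain ⟨k, hk, a, ha, hae⟩ := key Z hZ
    refine ⟨k, hk, a, ha, ?_⟩
    rw [← hae]
    exact (l1 a (hAu a ha).1).2.1.symm
  · intro a ha
    obtain ⟨h1, h2⟩ := hAu a ha
    exact ⟨lg a, h2, (l1 a h1).2.1.symm⟩

theorem LAT (hGRU : GRU_stmt) (hLGF : LGF_stmt) (hABG : ABG_stmt) (hNCM : NCM_stmt) : LAT_stmt := by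
  intro n m hm X hX r
  have hu := hGRU n m hm X hX
  have hrow := LAT_nil hLGF hNCM (fun j => X r j) (fun j => r ≠ j)
    (fun i k hi hk x hx y hy => hX.comm r i r k hi hk hi.symm hk x hx y hy)
    (fun i hi x hx => hu r i hi x hx)
  have hcol := LAT_nil hLGF hNCM (fun i => X i r) (fun i => i ≠ r)
    (fun i k hi hk x hx y hy => hX.comm i r k r hi hk hk.symm hi x hx y hy)
    (fun i hi x hx => hu i r hi x hx)
  obtain ⟨A, hA1, hA2, hA3⟩ := LAT_lat hLGF hABG (fun i => X i r) (fun i => i ≠ r)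
    (fun i k hi hk x hx y hy => hX.comm i r k r hi hk hk.symm hi x hx y hy)
    (fun i hi x hx => hu i r hi x hx) (gd X)
    (fun i hi x hx => Subgroup.subset_closure ⟨i, r, hi, hx⟩)
  exact ⟨hrow, A, hA1, hcol, hA2, hA3⟩

end Pool.Agent.RG9
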